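import Pool.Agent.N628.MOT.Even
import Pool.Agent.Results.MP_03df5c_nt.AlmostAllArguments

/-!
# MP_a57f33_nt: for almost all arguments, relations between motivic multiple zeta values follow from the stuffle product and
# Euler's formula

A pattern in `k` variables is a nonempty list of letters `b + u_1 s_1 + ... + u_k s_k`; at a tuple `s` of natural numbers
it gives an index. The first letters may be constant, such as in `ζ(2, 2, 2, s_1, 3, s_1 + s_2)`.

A lift of the real multiple zeta values is a function `Y` from the indices to a commutative `ℚ`-algebra `M` with a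
homomorphism `M → ℝ` which maps `Y(u)` to `ζ(u)`: for example the motivic multiple zeta values, with the period map, and the
real multiple zeta values themselves. A relation between the `Y(w_i(s))` is a consequence of the stuffle product and of
Euler's formula if it holds for every function `Z` from the indices to a commutative `ℚ`-algebra which satisfies the stuffle
product formula and the relations `Z(2 m) = c_m Z(2)^m`, where `c_m` is the rational number with `ζ(2 m) = c_m ζ(2)^m`.
Both are consequences of the regularized double shuffle relations; so such relations are also consequences of the regularized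
double shuffle relations, as the question predicts.

Theorem. (1) Let `w_1, ..., w_r` be admissible patterns in `k` variables for which all the constant first letters are equal
and even, in each pattern (or there are none), and `D`, `κ` natural numbers. There is `K` such that for all `C` and all large
`N`, for all but `K N ^ (k - 1)` of the tuples `s ∈ [N, κ N] ^ k`, every polynomial relation of degree at most `D` with integer
coefficients at most `C ^ N` between the values `Y(w_i(s))` of a lift `Y` is a consequence of the stuffle product and of
Euler's formula.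
(2) For arbitrary admissible patterns every such relation is a consequence of the stuffle product and of the relations
between the real multiple zeta values of the (finitely many, fixed) fronts, the nonempty initial segments of the lists of the
constant first letters of the patterns.

The starting files treat other questions (`p`-adic values, `MP_03df5c_nt`) for patterns without constant first letters, or
with constant first letters of weight at most three. The count of the tuples is the theorem `gen2` of `Pool.Agent.X90.DC`
(starting library), in the form of `MP_03df5c_nt.AlmostAllArguments` (helper734). New is the treatment of the fronts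
`2a, ..., 2a` with Newton's identities in the stuffle algebra for families with `Z(2) ≠ 0`.
-/

set_option autoImplicit false

namespace Pool.Agent.Results.MP_a57f33_nt.AlmostAllArguments

open Pool.Agent.Results.MP_03df5c_nt.AlmostAllArguments
  (mzv mzv_fun Admissible Letter index AdmissiblePattern constantPart fronts EvenFront HasStuffle Transfers Bad BadFor Few
    part1 fronts_even st_iff)

/-- `Y` is a lift of the real multiple zeta values: a homomorphism maps `Y u` to the real number `ζ(u)`, for all admissible
indices `u`; for example the motivic multiple zeta values -/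
def Lift {M : Type} [CommRing M] [Algebra ℚ M] (Y : List ℕ → M) : Prop :=
  ∃ per : M →ₐ[ℚ] ℝ, ∀ u, Admissible u → per (Y u) = mzv u

/-- Euler's formula: the relations `ζ(2 m) = c ζ(2) ^ m` with `c` rational and `m ≥ 1` hold for `Z` -/
def EulerFormula {A : Type} [CommRing A] [Algebra ℚ A] (Z : List ℕ → A) : Prop :=
  ∀ (m : ℕ) (c : ℚ), 1 ≤ m → mzv [2 * m] = c * mzv [2] ^ m → Z [2 * m] = algebraMap ℚ A c * Z [2] ^ m

/-- A polynomial relation of degree at most `D` with integer coefficients of absolute value at most `H` holds between the
values of a lift `Y` at the indices `w_i(s)`, but fails for a family `Z` with the stuffle product and the property `F`. -/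
def NotConsequence {k r : ℕ} (w : Fin r → List (Letter k)) (D : ℕ)
    (F : ∀ (A : Type) [CommRing A] [Algebra ℚ A], (List ℕ → A) → Prop) (H : ℝ) (s : Fin k → ℕ) : Prop :=
  ∃ (M : Type) (_ : CommRing M) (_ : Algebra ℚ M) (Y : List ℕ → M) (A : Type) (_ : CommRing A) (_ : Algebra ℚ A)
    (Z : List ℕ → A), Lift Y ∧ HasStuffle Z ∧ F A Z ∧
    ∃ P : MvPolynomial (Fin r) ℤ, P.totalDegree ≤ D ∧ (∀ m, |((P.coeff m : ℤ) : ℝ)| ≤ H) ∧
      MvPolynomial.aeval (fun i => Y (index s (w i))) P = 0 ∧
      MvPolynomial.aeval (fun i => Z (index s (w i))) P ≠ 0

theorem letter_ge {k : ℕ} (s : Fin k → ℕ) (hs : ∀ j, 2 ≤ s j) (u : Letter k) (hu : u.2 ≠ 0) :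
    2 ≤ u.1 + ∑ j, u.2 j * s j := by
  obtain ⟨j, hj⟩ : ∃ j, u.2 j ≠ 0 := by
    by_contra h
    push Not at h
    exact hu (funext h)
  have h1 : u.2 j * s j ≤ ∑ j, u.2 j * s j :=
    Finset.single_le_sum (f := fun j => u.2 j * s j) (fun _ _ => Nat.zero_le _) (Finset.mem_univ j)
  have h2 : 1 * 2 ≤ u.2 j * s j := Nat.mul_le_mul (Nat.one_le_iff_ne_zero.2 hj) (hs j)
  omega

theorem index_admissible {k : ℕ} (s : Fin k → ℕ) (hs : ∀ j, 2 ≤ s j) (w : List (Letter k)) (hw : AdmissiblePattern w) :
    Admissible (index s w) := by
  obtain ⟨h1, h2, h3⟩ := hw
  cases w with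
  | nil => exact absurd rfl h1
  | cons u l =>
    have h4 : ∀ v ∈ u :: l, 1 ≤ v.1 + ∑ j, v.2 j * s j := by
      intro v hv
      rcases h3 v hv with h | h
      · exact le_trans (by norm_num) (letter_ge s hs v h)
      · omega
    have h5 : 2 ≤ u.1 + ∑ j, u.2 j * s j := by
      rcases h2 u (by simp) with h | h
      · exact letter_ge s hs u h
      · omega
    rw [index, List.map_cons]
    refine ⟨h5, fun t ht => ?_⟩
    obtain ⟨v, hv, rfl⟩ := List.mem_map.1 ht
    exact h4 v (List.mem_cons_of_mem _ hv)

/-- a relation between the values of a lift holds between the real multiple zeta values -/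
theorem bad_of {k r : ℕ} (w : Fin r → List (Letter k)) (hw : ∀ i, AdmissiblePattern (w i)) (D : ℕ)
    (F : ∀ (A : Type) [CommRing A] [Algebra ℚ A], (List ℕ → A) → Prop) (H : ℝ) (s : Fin k → ℕ) (hs : ∀ j, 2 ≤ s j)
    (h : NotConsequence w D F H s) : BadFor w D F H s := by
  obtain ⟨M, i1, i2, Y, A, i3, i4, Z, ⟨per, hper⟩, hZ, hF, P, h1, h2, h3, h4⟩ := h
  refine ⟨A, i3, i4, Z, hZ, hF, P, h1, h2, ?_, h4⟩
  have h5 : MvPolynomial.aeval (fun i => per (Y (index s (w i)))) P = per (MvPolynomial.aeval (fun i => Y (index s (w i))) P) := by
    have h6 := MvPolynomial.map_aeval (fun i => Y (index s (w i))) per.toRingHom P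
    rw [MvPolynomial.aeval_eq_eval₂Hom]
    have h7 : (algebraMap ℤ ℝ) = per.toRingHom.comp (algebraMap ℤ M) := RingHom.ext_int _ _
    rw [h7]
    exact h6.symm
  rw [h3, map_zero] at h5
  rw [← h5]
  congr 2
  funext i
  exact (hper _ (index_admissible s hs (w i) (hw i))).symm

theorem few_of {k r : ℕ} (w : Fin r → List (Letter k)) (hw : ∀ i, AdmissiblePattern (w i)) (D κ : ℕ)
    (F : ∀ (A : Type) [CommRing A] [Algebra ℚ A], (List ℕ → A) → Prop) (h : Few κ (BadFor w D F)) :
    Few κ (NotConsequence w D F) := by
  obtain ⟨K, hK⟩ := h
  refine ⟨K, fun C => ?_⟩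
  obtain ⟨N₀, hN⟩ := hK C
  refine ⟨N₀ + 2, fun N hN' => (Set.ncard_le_ncard ?_ ?_).trans (hN N (by omega))⟩
  · rintro s ⟨h1, h2⟩
    exact ⟨h1, bad_of w hw D F _ s (fun j => le_trans (by omega) (h1 j).1) h2⟩
  · refine (Set.Finite.pi' (t := fun _ : Fin k => Set.Icc N (κ * N)) fun _ => Set.finite_Icc _ _).subset ?_
    intro s hs j
    exact ⟨(hs.1 j).1, (hs.1 j).2⟩

/-- **Theorem.** Let `w_1, ..., w_r` be admissible patterns in `k` variables and `D`, `κ` natural numbers. There is `K` such
that for all `C` and all large `N` at most `K N ^ (k - 1)` of the tuples `s ∈ [N, κ N] ^ k` have the following property: a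
polynomial relation of degree at most `D` with integer coefficients of absolute value at most `C ^ N` holds between the values
`Y(w_i(s))` of a lift `Y` of the real multiple zeta values (for example the motivic ones), and fails for a family `Z` with the
stuffle product (1) and Euler's formula, if all constant first letters of each pattern are equal and even, (2) and the
relations between the real multiple zeta values of the fronts, for arbitrary patterns. -/
theorem result (k r : ℕ) (w : Fin r → List (Letter k)) (hw : ∀ i, AdmissiblePattern (w i)) (D κ : ℕ) :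
    ((∀ i, EvenFront (w i)) → Few κ (NotConsequence w D fun _ _ _ Z => EulerFormula Z)) ∧
    Few κ (NotConsequence w D fun _ _ _ Z => Transfers (fronts w) Z) := by
  have h1 := part1 w hw D κ
  refine ⟨fun he => few_of w hw D κ _ (h1.mono fun H s => ?_), few_of w hw D κ _ h1⟩
  rintro ⟨A, i1, i2, Z, hZ, h0, hB⟩
  refine ⟨A, i1, i2, Z, hZ, ?_, hB⟩
  intro f hf
  rw [mzv_fun] at hf
  refine Pool.Agent.N628.MOT.even_transfer_two (fun u : {u : List ℕ // Admissible u ∧ u ∈ fronts w} => u.1)
    (fronts_even w he) Z ((st_iff Z).1 hZ) (fun m hm => h0 m _ hm ?_) f hf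
  rw [mzv_fun]
  exact Pool.Agent.N628.MOT.mz_cc m hm

end Pool.Agent.Results.MP_a57f33_nt.AlmostAllArguments
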