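import Pool.Agent.Y759.DS.Ballot
import Pool.Agent.H777R4.DM.DMN

/-! MP_a57f33_nt: the coefficients of an element of the double shuffle Lie algebra are rational linear
combinations of its coefficients at the ballot words. -/

set_option autoImplicit false

namespace Pool.Agent.Results.MP_a57f33_nt.BallotCoefficients

open Pool.Agent.H777R4.DM

/-- `w` is a ballot word: it ends in `x₁`, and each of its prefixes contains at least as many letters
`x₁` as letters `x₀`. -/
def Ballot (w : List (Fin 2)) : Prop :=
  (∃ v, w = v ++ [1]) ∧ ∀ v t : List (Fin 2), w = v ++ t → v.count 0 ≤ v.count 1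

/-- A prefix of `wordX a` has the form `wordX (a.take i) ++ x₀^j`, where `j` is at most the next
entry of `a`. -/
theorem prefix_form : ∀ (a : List ℕ) (v t : List (Fin 2)), wordX a = v ++ t →
    ∃ i j : ℕ, v = wordX (a.take i) ++ List.replicate j 0 ∧ i ≤ a.length ∧
      (j = 0 ∨ ∃ h : i < a.length, j ≤ a[i]) := by
  intro a
  induction a with
  | nil =>
    intro v t h
    have h1 : v = [] := by
      rw [wordX] at h
      exact (List.append_eq_nil_iff.1 h.symm).1
    exact ⟨0, 0, by simp [h1, wordX], by simp, Or.inl rfl⟩
  | cons k a ih =>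
    intro v t h
    rw [wordX, List.append_eq_append_iff] at h
    rcases h with ⟨s, hs, ht⟩ | ⟨s, hs, ht⟩
    · cases s with
      | nil =>
        refine ⟨0, k, ?_, by simp, Or.inr ⟨by simp, by simp⟩⟩
        simp [hs, wordX]
      | cons b s =>
        rw [List.cons_append, List.cons.injEq] at ht
        obtain ⟨hb, ht⟩ := ht
        obtain ⟨i, j, h1, h2, h3⟩ := ih s t ht
        refine ⟨i + 1, j, ?_, by simpa using h2, ?_⟩
        · rw [hs, ← hb, h1, List.take_succ_cons, wordX]
          simp
        · rcases h3 with h3 | ⟨h3, h4⟩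
          · exact Or.inl h3
          · exact Or.inr ⟨by simpa using h3, by simpa using h4⟩
    · refine ⟨0, v.length, ?_, by simp, Or.inr ⟨by simp, ?_⟩⟩
      · have h1 : ∀ b ∈ v, b = (0 : Fin 2) := by
          intro b hb
          have : b ∈ List.replicate k (0 : Fin 2) := by
            rw [hs]
            exact List.mem_append_left _ hb
          exact List.eq_of_mem_replicate this
        simpa [wordX] using List.eq_replicate_of_mem h1
      · have := congrArg List.length hs
        simp at this
        simp
        omega

theorem ballot_wordX {a : List ℕ} (ha : a ≠ []) (h : Pool.Agent.Y759.QS.Bal 1 a) :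
    Ballot (wordX a) := by
  have hend : ∀ a : List ℕ, a ≠ [] → ∃ v, wordX a = v ++ [1] := by
    intro a
    induction a with
    | nil => intro h; exact absurd rfl h
    | cons k a ih =>
      intro _
      rcases a with _ | ⟨l, a⟩
      · exact ⟨List.replicate k 0, rfl⟩
      · obtain ⟨v, hv⟩ := ih (by simp)
        exact ⟨List.replicate k 0 ++ 1 :: v, by rw [wordX, hv]; simp⟩
  refine ⟨hend a ha, ?_⟩
  intro v t hvt
  obtain ⟨i, j, h1, h2, h3⟩ := prefix_form a v t hvt
  have c0 : (wordX (a.take i)).count 0 = (a.take i).sum := Pool.Agent.Y759.QS.wordX_count0 _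
  have c1 : (wordX (a.take i)).count 1 = (a.take i).length := wordX_count _
  have e0 : v.count 0 = (a.take i).sum + j := by
    rw [h1, List.count_append, c0, List.count_replicate_self]
  have e1 : v.count 1 = i := by
    rw [h1, List.count_append, c1, List.length_take, min_eq_left h2]
    simp [List.count_replicate]
  rw [e0, e1]
  rcases h3 with h3 | ⟨h3, h4⟩
  · rcases i with _ | i
    · simp [h3]
    · have := h i (by omega)
      omega
  · have h5 := h i h3
    rw [List.take_add_one, List.getElem?_eq_getElem h3] at h5
    simp only [Option.toList_some, List.sum_append, List.sum_cons, List.sum_nil] at h5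
    omega

/-- The double shuffle Lie algebra as a subspace of `ℚ⟨x₀, x₁⟩`. -/
def D : Submodule ℚ A where
  carrier := {ψ | IsDM ψ}
  zero_mem' := isDM_zero
  add_mem' := fun h h' => isDM_add h h'
  smul_mem' := fun c _ h => isDM_smul h c

/-- The coefficient of a word as a linear form on `D`. -/
noncomputable def coef (w : List (Fin 2)) : D →ₗ[ℚ] ℚ where
  toFun ψ := co ψ.1 w
  map_add' _ _ := rfl
  map_smul' _ _ := rfl

/-- **Double shuffle and ballot words.** For each word `u` there are a finite set `S` of ballot words
with as many letters as `u` and rational numbers `c w`, `w ∈ S`, such that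
`(ψ | u) = ∑_{w ∈ S} c w (ψ | w)` for every element `ψ` of the double shuffle Lie algebra. In
particular an element of the double shuffle Lie algebra whose coefficients at the ballot words vanish
is zero. -/
theorem result (u : List (Fin 2)) : ∃ (S : Finset (List (Fin 2))) (c : List (Fin 2) → ℚ),
    (∀ w ∈ S, Ballot w ∧ w.length = u.length) ∧
    ∀ ψ : A, IsDM ψ → co ψ u = ∑ w ∈ S, c w * co ψ w := by
  classical
  have hfin : {w : List (Fin 2) | w.length = u.length}.Finite := List.finite_length_eq _ _
  set S : Finset (List (Fin 2)) := hfin.toFinset.filter Ballot with hS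
  have hSm : ∀ w, w ∈ S ↔ Ballot w ∧ w.length = u.length := by
    intro w
    rw [hS, Finset.mem_filter, Set.Finite.mem_toFinset, Set.mem_ofPred_eq, and_comm]
  have hker : ⨅ w : S, LinearMap.ker (coef w.1) ≤ LinearMap.ker (coef u) := by
    intro ψ hψ
    rw [Submodule.mem_iInf] at hψ
    rw [LinearMap.mem_ker]
    have h0 : ∀ w ∈ S, co ψ.1 w = 0 := fun w hw => LinearMap.mem_ker.1 (hψ ⟨w, hw⟩)
    by_cases hu : u = []
    · have h1 := taskSmall_proof taskTwoB Pool.Agent.H352.DSH.taskTwoC ψ.1 ψ.2
      change co ψ.1 u = 0
      by_contra hne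
      have := (h1 u hne).1
      rw [hu] at this
      simp at this
    have h2 : comp u.length ψ.1 = 0 := by
      refine Pool.Agent.Y759.QS.ballot (Pool.Agent.H217R3.DMC.taskComp ψ.1 _ ψ.2) ?_
      intro a ha
      rw [co_comp]
      split_ifs with hl
      · refine h0 _ ((hSm _).2 ⟨ballot_wordX ?_ ha, hl⟩)
        rintro rfl
        rw [wordX] at hl
        exact hu (List.length_eq_zero_iff.1 hl.symm)
      · rfl
    have h3 := congrArg (fun P => co P u) h2
    simp only [co_comp, if_true] at h3
    exact h3
  obtain ⟨c, hc⟩ := (Submodule.mem_span_range_iff_exists_fun ℚ).1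
    (mem_span_of_iInf_ker_le_ker hker)
  refine ⟨S, fun w => if h : w ∈ S then c ⟨w, h⟩ else 0, fun w hw => (hSm w).1 hw, ?_⟩
  intro ψ hψ
  have h4 := congrArg (fun L : D →ₗ[ℚ] ℚ => L ⟨ψ, hψ⟩) hc
  simp only [LinearMap.sum_apply, LinearMap.smul_apply] at h4
  change ∑ w : S, c w • co ψ w.1 = co ψ u at h4
  rw [← h4, ← Finset.sum_coe_sort S]
  refine Finset.sum_congr rfl fun w _ => ?_
  simp only [w.2, dif_pos, smul_eq_mul]

end Pool.Agent.Results.MP_a57f33_nt.BallotCoefficients
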