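import Pool.Agent.N628.CMT.Gen
import Pool.Agent.Results.MP_a57f33_nt.AlmostAllArguments

/-!
# MP_a57f33_nt: relations between motivic multiple zeta values with arguments near all multiples of Carmichael's function
# follow from the stuffle product and Euler's formula

A pattern in `k` variables is a nonempty list of letters `b + u_1 s_1 + ... + u_k s_k`; at a tuple `s` of natural numbers
it gives an index. The values `Y(w_i(s))` of a lift of the real multiple zeta values are considered, for example of the
motivic multiple zeta values. The tuple `s` is bad if a polynomial relation of degree at most `D` with integer coefficients at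
most `H` between them is not a consequence of the stuffle product and of Euler's formula (`Z(2 m) = c_m Z(2)^m`, where
`ζ(2 m) = c_m ζ(2)^m`). Both follow from the regularized double shuffle relations.

Let `w_1, ..., w_r` be admissible patterns in `k` variables. Let `B ≥ 1`, `B (k - 1) < k`; for `k = 1` every `B` is allowed. We
prove: for all `k`-tuples `m` of positive integers up to `N` but `N^k / (log N)^U`, for EVERY tuple `v` of multiples
`v_i ≤ N^B` of Carmichael's function `λ(m_i)`, for ALL tuples `s = (a_i v_i + b_i)` with integers `a_i ≠ 0`,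
`|a_i|, |b_i| ≤ v_l^η` for some `l`, and all `X` with `X ≤ s_i ≤ κ X` for all `i`, the tuple `s` is not bad, for `D` and
`H = C ^ X`, if the constant first letters of each pattern are equal and even. For arbitrary patterns such relations are
consequences of the stuffle product and of the relations between the real multiple zeta values of the constant fronts.

The theorem `AlmostAllArguments` of this page bounds the number of the bad tuples in `[N, κ N] ^ k` by `K N ^ (k - 1)`. But a
single `v ≤ N^B` can be a multiple of `λ(m)` for more than `N^(1 - ε)` numbers `m ≤ N` (popular values), and all multiples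
`v_i` of `λ(m_i)` up to `N^B`, with all their windows, are considered at once. So this does not follow from the number of the
bad tuples. The proof uses the tool `N790/CM` of helper790.
-/

set_option autoImplicit false

namespace Pool.Agent.Results.MP_a57f33_nt.CarmichaelMultiples

open Pool.Agent.N790.CM (FewTimes Carries fewTimes_pred carries_carmichael)
open Pool.Agent.N628.CMT (NearMultiple powers)
open Pool.Agent.Results.MP_03df5c_nt.AlmostAllArguments (Letter AdmissiblePattern EvenFront Transfers fronts)
open Pool.Agent.Results.MP_a57f33_nt.AlmostAllArguments (Lift EulerFormula NotConsequence)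

/-- For all `κ`, `C`, all `F_1, ..., F_k` which take each positive value at most `T` times at the primes and all `U`, for all
large `N` and all but at most `N^k / (log N)^U` of the tuples `m` of integers in `[1, N]`: for ALL `v` with `1 ≤ v_i ≤ N^B` and
`F_i(p) ∣ v_i` for all primes `p > exp (√(log N))` which divide `m_i` exactly once, for ALL tuples `s` of natural numbers
`s_i = a_i v_i + b_i` with integers `a_i ≠ 0`, `|a_i|, |b_i| ≤ v_l^η` for some `l`, and all `X ≥ 1` with `X ≤ s_i ≤ κ X` for
all `i`, the property `E (C ^ X)` fails for `s`. -/
def FailsNearMultiples {k : ℕ} (B η : ℝ) (E : ℝ → (Fin k → ℕ) → Prop) : Prop :=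
  ∀ (κ : ℕ) (C : ℝ) (T : ℕ) (F : Fin k → ℕ → ℕ), (∀ i, FewTimes (F i) T) → ∀ U : ℕ, ∃ N₀ : ℕ, ∀ N : ℕ, N₀ ≤ N →
    ({m : Fin k → ℕ | (∀ i, 1 ≤ m i ∧ m i ≤ N) ∧ ¬ ∀ v : Fin k → ℕ, (∀ i, 1 ≤ v i ∧ (v i : ℝ) ≤ (N : ℝ) ^ B ∧
      Carries (F i) (Real.exp √(Real.log N)) (m i) (v i)) → ∀ (s : Fin k → ℕ) (X : ℕ), 1 ≤ X →
      (∀ i, X ≤ s i ∧ s i ≤ κ * X) → NearMultiple η v s → ¬ E (C ^ X) s}.ncard : ℝ) ≤
      (N : ℝ) ^ k / Real.log N ^ U

theorem notConsequence_mono {k r : ℕ} (w : Fin r → List (Letter k)) (D : ℕ)
    (G : ∀ (A : Type) [CommRing A] [Algebra ℚ A], (List ℕ → A) → Prop) (H H' : ℝ) (s : Fin k → ℕ) (h : H ≤ H')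
    (hs : NotConsequence w D G H s) : NotConsequence w D G H' s := by
  obtain ⟨M, i1, i2, Y, A, i3, i4, Z, h1, h2, h3, P, h4, h5, h6⟩ := hs
  exact ⟨M, i1, i2, Y, A, i3, i4, Z, h1, h2, h3, P, h4, fun m => (h5 m).trans h, h6⟩

/-- Let `k ≥ 1`, `B ≥ 1`, `B (k - 1) < k`. There is `η > 0` such that for all admissible patterns `w_1, ..., w_r` in `k`
variables and all `D`, for almost all `m`, for all tuples `s` near a tuple of common multiples `v_i ≤ N^B`: (1) if the constant
first letters of each pattern are equal and even, every polynomial relation of degree at most `D` with integer coefficients at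
most `C ^ X` between the values of a lift of the real multiple zeta values (for example the motivic ones) at the `w_i(s)` holds
for all families with the stuffle product and Euler's formula; (2) for arbitrary patterns it holds for all families with the
stuffle product for which the relations between the real multiple zeta values of the fronts hold. The function `f(p) = p - 1`
takes each value at most once, and every multiple of Carmichael's function `λ(m)` is divisible by `p - 1` for all `p ∣ m`. -/
theorem result :
    (∀ k : ℕ, 1 ≤ k → ∀ B : ℝ, 1 ≤ B → B * ((k : ℝ) - 1) < k → ∃ η : ℝ, 0 < η ∧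
      ∀ (r : ℕ) (w : Fin r → List (Letter k)), (∀ i, AdmissiblePattern (w i)) → ∀ D : ℕ,
      ((∀ i, EvenFront (w i)) → FailsNearMultiples B η (NotConsequence w D fun _ _ _ Z => EulerFormula Z)) ∧
      FailsNearMultiples B η (NotConsequence w D fun _ _ _ Z => Transfers (fronts w) Z)) ∧
    FewTimes (fun p => p - 1) 1 ∧
    ∀ (y : ℝ) (m v : ℕ), ArithmeticFunction.carmichael m ∣ v → Carries (fun p => p - 1) y m v := by
  refine ⟨fun k hk B hB hBk => ?_, fewTimes_pred, carries_carmichael⟩
  obtain ⟨η, hη, h⟩ := powers hk hB hBk
  refine ⟨η, hη, fun r w hw D => ⟨fun hf κ C T F hF U => ?_, fun κ C T F hF U => ?_⟩⟩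
  · exact h _ (fun H H' s => notConsequence_mono w D _ H H' s)
      (fun κ' => (AlmostAllArguments.result k r w hw D κ').1 hf) κ C T F hF U
  · exact h _ (fun H H' s => notConsequence_mono w D _ H H' s)
      (fun κ' => (AlmostAllArguments.result k r w hw D κ').2) κ C T F hF U

end Pool.Agent.Results.MP_a57f33_nt.CarmichaelMultiples
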