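import Pool.Agent.N760.SC.A
import Pool.Agent.N733.TG.M
import Pool.Agent.Results.MP_a57f33_nt.AlmostAllArguments

/-!
# MP_a57f33_nt: relations between motivic multiple zeta values near the values of multiplicative functions follow from the
# stuffle product and Euler's formula

A pattern in `k` variables is a nonempty list of letters `b + u_1 s_1 + ... + u_k s_k`; at a tuple `s` of natural numbers
it gives an index. The values `Y(w_i(s))` of a lift of the real multiple zeta values are considered, for example of the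
motivic multiple zeta values. The tuple `s` is bad if a polynomial relation of degree at most `D` with integer coefficients at
most `H` between them is not a consequence of the stuffle product and of Euler's formula (`Z(2 m) = c_m Z(2)^m`, where
`ζ(2 m) = c_m ζ(2)^m`). Both follow from the regularized double shuffle relations.

Let `F_1, ..., F_k` be positive multiplicative functions of at most polynomial growth with `F_i p ≤ M p` for the large primes
`p` and different values at different large primes, for example Euler's function or the sum of the divisors, and let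
`0 ≤ θ`, `k θ < 1`. Theorem: for all large `N`, for all but `N ^ k / (log N) ^ U` of the `m ∈ [1, N] ^ k`, NO tuple `s` near the
tuple of the values, `|s_i - F_i(m_i)| ≤ F_i(m_i) ^ θ`, in a cone `T ≤ s_i ≤ κ T`, is bad for `D` and `H = C ^ T`, if the constant
first letters of each pattern are equal and even. For arbitrary patterns such relations are consequences of the stuffle product
and of the relations between the real multiple zeta values of the constant fronts.

The values of such functions form a thin set and are taken with very large multiplicities. So this does not follow from the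
number of the bad tuples (`AlmostAllArguments`: at most `K N ^ (k - 1)` in `[N, κ N] ^ k`), which is used. The tool for the
values of multiplicative functions is `Pool.Agent.N760.SC` (helper760), `Pool.Agent.N733.TG` (helper733).
-/

set_option autoImplicit false

namespace Pool.Agent.Results.MP_a57f33_nt.MultiplicativeValues

open Pool.Agent.N733.TG (LM lm_totient lm_sigma)
open Pool.Agent.Results.MP_03df5c_nt.AlmostAllArguments (Letter AdmissiblePattern EvenFront Transfers fronts Few)
open Pool.Agent.Results.MP_a57f33_nt.AlmostAllArguments (Lift EulerFormula NotConsequence)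

/-- For all large `N`, for all but `N ^ k / (log N) ^ U` of the tuples `m ∈ [1, N] ^ k` the property `E (C ^ T)` fails for ALL
tuples `s` with `|s_i - F_i(m_i)| ≤ F_i(m_i) ^ θ` and `T ≤ s_i ≤ κ T`, `T ≥ 1`. -/
def ThinNear {k : ℕ} (κ : ℕ) (C : ℝ) (F : Fin k → ℕ → ℕ) (θ : ℝ) (U : ℕ) (E : ℝ → (Fin k → ℕ) → Prop) : Prop :=
  ∃ N₀ : ℕ, ∀ N : ℕ, N₀ ≤ N →
    ({m : Fin k → ℕ | (∀ i, 1 ≤ m i ∧ m i ≤ N) ∧ ∃ (s : Fin k → ℕ) (T : ℕ), 1 ≤ T ∧ (∀ i, T ≤ s i ∧ s i ≤ κ * T) ∧
      (∀ i, |(s i : ℝ) - F i (m i)| ≤ (F i (m i) : ℝ) ^ θ) ∧ E (C ^ T) s}.ncard : ℝ) ≤ (N : ℝ) ^ k / Real.log N ^ U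

theorem pow_bound (C : ℝ) {N T : ℕ} (h : T ≤ 2 * N) : C ^ T ≤ ((max |C| 1) ^ 2) ^ N := by
  have h5 : (1 : ℝ) ≤ max |C| 1 := le_max_right _ _
  calc C ^ T ≤ |C ^ T| := le_abs_self _
    _ = |C| ^ T := abs_pow C T
    _ ≤ (max |C| 1) ^ T := pow_le_pow_left₀ (abs_nonneg C) (le_max_left _ _) T
    _ ≤ (max |C| 1) ^ (2 * N) := pow_le_pow_right₀ h5 h
    _ = _ := pow_mul _ _ _

theorem thin_of_few {k : ℕ} (hk : 1 ≤ k) (κ : ℕ) (C : ℝ) {F : Fin k → ℕ → ℕ} (hF : ∀ i, LM (F i)) {θ : ℝ} (hθ : 0 ≤ θ)
    (hθk : k * θ < 1) (U : ℕ) {E : ℝ → (Fin k → ℕ) → Prop} (hE : ∀ H H' s, H ≤ H' → E H s → E H' s)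
    (h : Few (2 * κ) E) : ThinNear κ C F θ U E := by
  obtain ⟨K, hK⟩ := h
  obtain ⟨N₁, hN₁⟩ := hK ((max |C| 1) ^ 2)
  obtain ⟨N₀, hN₀⟩ := Pool.Agent.N760.SC.keep_scales hk κ (fun T s => E (C ^ T) s)
    (fun N s => E (((max |C| 1) ^ 2) ^ N) s)
    (fun N T s h1 h2 h3 => hE _ _ s (pow_bound C h2.le) h3)
    ⟨K, N₁, fun N hN => hN₁ N hN⟩ hF hθ hθk U
  refine ⟨N₀, fun N hN => le_trans (le_of_eq ?_) (hN₀ N hN)⟩
  congr 2
  ext m
  constructor
  · rintro ⟨h1, s, T, h2, h3, h4, h5⟩
    exact ⟨h1, fun h => h s T h2 h3 h4 h5⟩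
  · rintro ⟨h1, h2⟩
    push Not at h2
    obtain ⟨s, T, h2, h3, h4, h5⟩ := h2
    exact ⟨h1, s, T, h2, h3, h4, h5⟩

theorem notConsequence_mono {k r : ℕ} (w : Fin r → List (Letter k)) (D : ℕ)
    (G : ∀ (A : Type) [CommRing A] [Algebra ℚ A], (List ℕ → A) → Prop) (H H' : ℝ) (s : Fin k → ℕ) (h : H ≤ H')
    (hs : NotConsequence w D G H s) : NotConsequence w D G H' s := by
  obtain ⟨M, i1, i2, Y, A, i3, i4, Z, h1, h2, h3, P, h4, h5, h6⟩ := hs
  exact ⟨M, i1, i2, Y, A, i3, i4, Z, h1, h2, h3, P, h4, fun m => (h5 m).trans h, h6⟩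

/-- **Theorem.** Let `w_1, ..., w_r` be admissible patterns in `k ≥ 1` variables, `D`, `κ` natural numbers, `C` a real
number, `F_1, ..., F_k` functions with `LM`, `θ ≥ 0`, `k θ < 1`, and `U` a natural number. For all large `N`, for all but
`N ^ k / (log N) ^ U` of the `m ∈ [1, N] ^ k`, for ALL tuples `s` with `|s_i - F_i(m_i)| ≤ F_i(m_i) ^ θ` and `T ≤ s_i ≤ κ T`,
every polynomial relation of degree at most `D` with integer coefficients at most `C ^ T` between the values of a lift of the
real multiple zeta values (for example the motivic ones) at the `w_i(s)` holds (1) for all families with the stuffle product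
and Euler's formula, if the constant first letters of each pattern are equal and even; (2) for all families with the stuffle
product for which the relations between the real multiple zeta values of the fronts hold. Euler's function and the sum of the
divisors satisfy `LM`. -/
theorem result :
    (∀ (k r : ℕ), 1 ≤ k → ∀ w : Fin r → List (Letter k), (∀ i, AdmissiblePattern (w i)) → ∀ (D κ : ℕ) (C : ℝ)
      (F : Fin k → ℕ → ℕ), (∀ i, LM (F i)) → ∀ θ : ℝ, 0 ≤ θ → k * θ < 1 → ∀ U : ℕ,
      ((∀ i, EvenFront (w i)) → ThinNear κ C F θ U (NotConsequence w D fun _ _ _ Z => EulerFormula Z)) ∧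
      ThinNear κ C F θ U (NotConsequence w D fun _ _ _ Z => Transfers (fronts w) Z)) ∧
    LM Nat.totient ∧ LM (fun m => ∑ d ∈ m.divisors, d) := by
  refine ⟨fun k r hk w hw D κ C F hF θ hθ hθk U => ⟨fun he => ?_, ?_⟩, lm_totient, lm_sigma⟩
  · exact thin_of_few hk κ C hF hθ hθk U (fun H H' s => notConsequence_mono w D _ H H' s)
      ((AlmostAllArguments.result k r w hw D (2 * κ)).1 he)
  · exact thin_of_few hk κ C hF hθ hθk U (fun H H' s => notConsequence_mono w D _ H H' s)
      ((AlmostAllArguments.result k r w hw D (2 * κ)).2)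

end Pool.Agent.Results.MP_a57f33_nt.MultiplicativeValues
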